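import Mathlib
import Pool.Agent.Helper94_SQS.Stmts

/-!
# SQS, module LOSA: events of all probabilities, jointly measurable
-/

set_option autoImplicit false

open MeasureTheory Filter Topology

namespace Pool.Agent.SQS.H40

/-- the number with binary digits `ω 0, ..., ω (n-1)` (first digit most significant) -/
def nn (ω : ℕ → Bool) : ℕ → ℕ
  | 0 => 0
  | n + 1 => 2 * nn ω n + (ω n).toNat

theorem nn_congr {ω ω' : ℕ → Bool} : ∀ n, (∀ i < n, ω i = ω' i) → nn ω n = nn ω' n
  | 0, _ => rfl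
  | n + 1, h => by
    rw [nn, nn, nn_congr n (fun i hi => h i (by omega)), h n (by omega)]

theorem toNat_le_one (b : Bool) : b.toNat ≤ 1 := by cases b <;> simp

theorem nn_inj {ω ω' : ℕ → Bool} : ∀ n, nn ω n = nn ω' n → ∀ i < n, ω i = ω' i
  | 0, _, i, hi => absurd hi (Nat.not_lt_zero i)
  | n + 1, h, i, hi => by
    rw [nn, nn] at h
    have h1 := toNat_le_one (ω n)
    have h2 := toNat_le_one (ω' n)
    have h3 : nn ω n = nn ω' n := by omega
    have h4 : (ω n).toNat = (ω' n).toNat := by omega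
    rcases Nat.lt_succ_iff_lt_or_eq.1 hi with h5 | h5
    · exact nn_inj n h3 i h5
    · rw [h5]
      revert h4
      cases ω n <;> cases ω' n <;> simp

theorem nn_lt (ω : ℕ → Bool) : ∀ n, nn ω n < 2 ^ n
  | 0 => by simp [nn]
  | n + 1 => by
    have h1 := toNat_le_one (ω n)
    have h2 := nn_lt ω n
    rw [nn, pow_succ]
    omega

theorem nn_surj : ∀ n k, k < 2 ^ n → ∃ ω : ℕ → Bool, nn ω n = k
  | 0, k, h => ⟨fun _ => false, by simp at h; rw [nn, h]⟩
  | n + 1, k, h => by
    obtain ⟨ω, hω⟩ := nn_surj n (k / 2) (by rw [pow_succ] at h; omega)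
    refine ⟨Function.update ω n (decide (k % 2 = 1)), ?_⟩
    rw [nn, nn_congr (ω' := ω) n (fun i hi => Function.update_of_ne (by omega) _ _), hω,
      Function.update_self]
    rcases Nat.mod_two_eq_zero_or_one k with h1 | h1
    · rw [h1]; simp; omega
    · rw [h1]; simp; omega

theorem measurable_nn (n : ℕ) : Measurable fun ω : ℕ → Bool => nn ω n := by
  induction n with
  | zero => exact measurable_const
  | succ n ih =>
    have h1 : Measurable fun ω : ℕ → Bool => (ω n).toNat :=
      (measurable_from_top (f := Bool.toNat)).comp (measurable_pi_apply n)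
    exact (ih.const_mul 2).add h1

theorem unif_singleton (b : Bool) : unif {b} = 1 / 2 := by
  unfold unif
  rw [PMF.toMeasure_apply_singleton _ _ (measurableSet_singleton b)]
  simp

theorem coin_cyl (I : Type) (J : Finset I) (w : I → Bool) :
    coin I {ω | ∀ j ∈ J, ω j = w j} = (1 / 2) ^ J.card := by
  classical
  have h : {ω : I → Bool | ∀ j ∈ J, ω j = w j} = (J : Set I).pi fun j => {w j} := by
    ext ω; simp [Set.mem_pi]
  rw [h]
  unfold coin
  rw [Measure.infinitePi_pi _ (fun i _ => measurableSet_singleton _)]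
  simp only [unif_singleton, Finset.prod_const]

theorem coin_nn_eq (n k : ℕ) (hk : k < 2 ^ n) :
    coin ℕ {ω | nn ω n = k} = (1 / 2) ^ n := by
  obtain ⟨w, hw⟩ := nn_surj n k hk
  have h : {ω : ℕ → Bool | nn ω n = k} = {ω | ∀ j ∈ Finset.range n, ω j = w j} := by
    ext ω
    simp only [Set.mem_ofPred_eq, Finset.mem_range]
    constructor
    · intro h i hi
      exact nn_inj n (h.trans hw.symm) i hi
    · intro h
      rw [nn_congr n h, hw]
  rw [h, coin_cyl, Finset.card_range]

theorem coin_nn_lt (n k : ℕ) (hk : k ≤ 2 ^ n) :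
    coin ℕ {ω | nn ω n < k} = k * (1 / 2) ^ n := by
  induction k with
  | zero => simp
  | succ k ih =>
    have h : {ω : ℕ → Bool | nn ω n < k + 1} = {ω | nn ω n < k} ∪ {ω | nn ω n = k} := by
      ext ω
      simp only [Set.mem_ofPred_eq, Set.mem_union]
      omega
    have hd : Disjoint {ω : ℕ → Bool | nn ω n < k} {ω | nn ω n = k} := by
      rw [Set.disjoint_left]
      intro ω h1 h2
      simp only [Set.mem_ofPred_eq] at h1 h2
      omega
    have hm : MeasurableSet {ω : ℕ → Bool | nn ω n = k} :=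
      measurable_nn n (measurableSet_singleton k)
    rw [h, measure_union hd hm, ih (by omega), coin_nn_eq n k (by omega)]
    push_cast
    ring

theorem losa : LosAStmt := by
  refine ⟨⋃ n : ℕ, {p : ℝ × (ℕ → Bool) | nn p.2 n < ⌊p.1 * 2 ^ n⌋₊}, ?_, ?_⟩
  · refine MeasurableSet.iUnion fun n => ?_
    have h1 : Measurable fun p : ℝ × (ℕ → Bool) => nn p.2 n := (measurable_nn n).comp measurable_snd
    have h2 : Measurable fun p : ℝ × (ℕ → Bool) => ⌊p.1 * 2 ^ n⌋₊ :=
      Nat.measurable_floor.comp (measurable_fst.mul_const _)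
    exact measurableSet_lt h1 h2
  · intro t ht0 ht1
    have hset : {ω : ℕ → Bool | (t, ω) ∈ ⋃ n : ℕ, {p : ℝ × (ℕ → Bool) |
        nn p.2 n < ⌊p.1 * 2 ^ n⌋₊}} = ⋃ n : ℕ, {ω | nn ω n < ⌊t * 2 ^ n⌋₊} := by
      ext ω; simp
    rw [hset]
    have hmono : Monotone fun n : ℕ => {ω : ℕ → Bool | nn ω n < ⌊t * 2 ^ n⌋₊} := by
      refine monotone_nat_of_le_succ fun n ω hω => ?_
      simp only [Set.mem_ofPred_eq] at hω ⊢
      have h1 := toNat_le_one (ω n)
      have h2 : 2 * ⌊t * 2 ^ n⌋₊ ≤ ⌊t * 2 ^ (n + 1)⌋₊ := by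
        apply Nat.le_floor
        have h3 : (⌊t * 2 ^ n⌋₊ : ℝ) ≤ t * 2 ^ n := Nat.floor_le (by positivity)
        push_cast
        rw [pow_succ]
        linarith
      rw [nn]
      omega
    have h1 := tendsto_measure_iUnion_atTop (μ := coin ℕ) hmono
    have h2 : Tendsto (fun n : ℕ => coin ℕ {ω : ℕ → Bool | nn ω n < ⌊t * 2 ^ n⌋₊}) atTop
        (𝓝 (ENNReal.ofReal t)) := by
      have h3 : ∀ n : ℕ, coin ℕ {ω : ℕ → Bool | nn ω n < ⌊t * 2 ^ n⌋₊} =
          ENNReal.ofReal (⌊t * 2 ^ n⌋₊ / 2 ^ n) := by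
        intro n
        have hle : ⌊t * 2 ^ n⌋₊ ≤ 2 ^ n := by
          have : t * 2 ^ n ≤ ((2 ^ n : ℕ) : ℝ) := by
            push_cast
            have : (0 : ℝ) < 2 ^ n := by positivity
            nlinarith
          exact Nat.floor_le_of_le this
        rw [coin_nn_lt n _ hle, ENNReal.ofReal_div_of_pos (by positivity), ENNReal.ofReal_natCast,
          ENNReal.ofReal_pow (by norm_num), one_div, div_eq_mul_inv, ENNReal.ofReal_ofNat,
          ENNReal.inv_pow]
      simp_rw [h3]
      refine ENNReal.tendsto_ofReal ?_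
      have h4 : Tendsto (fun n : ℕ => (2 : ℝ) ^ n) atTop atTop :=
        tendsto_pow_atTop_atTop_of_one_lt (by norm_num)
      exact (tendsto_nat_floor_mul_div_atTop ht0).comp h4
    exact tendsto_nhds_unique h1 h2

end Pool.Agent.SQS.H40
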