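import Mathlib
import Pool.Agent.Helper94_SQS.Stmts

/-!
# SQS, module LOSB: every probability measure on a Cantor cube is an image of coins
-/

set_option autoImplicit false

open MeasureTheory Filter Topology ProbabilityTheory

namespace Pool.Agent.SQS.H40

/-- finite measures which agree on cylinders are equal -/
theorem ext_cyl {I : Type} (μ ν : Measure (I → Bool)) [IsFiniteMeasure μ] [IsFiniteMeasure ν]
    (h : ∀ (J : Finset I) (w : I → Bool),
      μ {y | ∀ j ∈ J, y j = w j} = ν {y | ∀ j ∈ J, y j = w j}) : μ = ν := by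
  classical
  have h1 : ∀ J : Finset I, μ.map J.restrict = ν.map J.restrict := by
    intro J
    refine Measure.ext_of_singleton fun w => ?_
    have h2 : (J.restrict : (I → Bool) → (J → Bool)) ⁻¹' {w} =
        {y | ∀ j ∈ J, y j = (fun i => if hi : i ∈ J then w ⟨i, hi⟩ else false) j} := by
      ext y
      simp only [Set.mem_preimage, Set.mem_singleton_iff, Set.mem_ofPred_eq]
      constructor
      · intro hy j hj
        rw [dif_pos hj, ← hy]
        rfl
      · intro hy
        funext j
        have := hy j.1 j.2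
        rw [dif_pos j.2] at this
        exact this
    rw [Measure.map_apply (Finset.measurable_restrict J) (measurableSet_singleton w),
      Measure.map_apply (Finset.measurable_restrict J) (measurableSet_singleton w), h2, h]
  exact IsProjectiveLimit.unique (P := fun J : Finset I => ν.map J.restrict) h1 (fun J => rfl)

/-- conditional probabilities -/
theorem exists_cond {Ω A : Type} [MeasurableSpace Ω] [MeasurableSpace A] (ν : Measure Ω)
    [IsFiniteMeasure ν] (ρ : Ω → A) (hρ : Measurable ρ) (E : Set Ω) :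
    ∃ g : A → ℝ, Measurable g ∧ (∀ y, 0 ≤ g y) ∧ (∀ y, g y ≤ 1) ∧
      ∀ B : Set A, MeasurableSet B →
        ∫⁻ y in B, ENNReal.ofReal (g y) ∂(ν.map ρ) = ν (ρ ⁻¹' B ∩ E) := by
  have : IsFiniteMeasure (ν.map ρ) := Measure.isFiniteMeasure_map ν ρ
  have : IsFiniteMeasure ((ν.restrict E).map ρ) := Measure.isFiniteMeasure_map _ ρ
  have hle : (ν.restrict E).map ρ ≤ ν.map ρ := Measure.map_mono Measure.restrict_le_self hρ
  set f := ((ν.restrict E).map ρ).rnDeriv (ν.map ρ) with hf
  have hfm : Measurable f := Measure.measurable_rnDeriv _ _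
  have hf1 : f ≤ᵐ[ν.map ρ] 1 := Measure.rnDeriv_le_one_of_le hle
  have hwd : (ν.map ρ).withDensity f = (ν.restrict E).map ρ :=
    Measure.withDensity_rnDeriv_eq _ _ (Measure.absolutelyContinuous_of_le hle)
  refine ⟨fun y => (min (f y) 1).toReal, (hfm.min measurable_const).ennreal_toReal,
    fun y => ENNReal.toReal_nonneg, fun y => ?_, fun B hB => ?_⟩
  · have h1 : min (f y) 1 ≤ 1 := min_le_right _ _
    have := ENNReal.toReal_mono ENNReal.one_ne_top h1
    simpa using this
  · have h1 : ∫⁻ y in B, ENNReal.ofReal ((min (f y) 1).toReal) ∂(ν.map ρ) =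
        ∫⁻ y in B, f y ∂(ν.map ρ) := by
      refine lintegral_congr_ae ?_
      filter_upwards [ae_restrict_of_ae hf1] with y hy
      have hy' : f y ≤ 1 := hy
      have h2 : min (f y) 1 ≠ ⊤ := ne_top_of_le_ne_top ENNReal.one_ne_top (min_le_right _ _)
      rw [ENNReal.ofReal_toReal h2, min_eq_left hy']
    rw [h1, ← withDensity_apply _ hB, hwd, Measure.map_apply hρ hB,
      Measure.restrict_apply (hρ hB)]

section rec

variable {I : Type} [LinearOrder I] [WellFoundedLT I]

/-- the recursive construction -/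
noncomputable def YY (T : Set (ℝ × (ℕ → Bool))) (g : ∀ i : I, ({j // j < i} → Bool) → ℝ)
    (ω : I → ℕ → Bool) : I → Bool :=
  WellFounded.fix (wellFounded_lt (α := I)) fun i rec =>
    @decide ((g i (fun j => rec j.1 j.2), ω i) ∈ T) (Classical.propDecidable _)

theorem YY_eq (T : Set (ℝ × (ℕ → Bool))) (g : ∀ i : I, ({j // j < i} → Bool) → ℝ)
    (ω : I → ℕ → Bool) (i : I) :
    YY T g ω i = true ↔ (g i (fun j => YY T g ω j.1), ω i) ∈ T := by
  classical
  have h : YY T g ω i =
      @decide ((g i (fun j => YY T g ω j.1), ω i) ∈ T) (Classical.propDecidable _) := by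
    unfold YY
    rw [WellFounded.fix_eq]
  rw [h]
  simp

/-- the `σ`-algebra of the coordinate `j` -/
@[reducible] def mm (j : I) : MeasurableSpace (I → ℕ → Bool) :=
  MeasurableSpace.comap (fun ω : I → ℕ → Bool => ω j) inferInstance

theorem measurable_YY_sub (T : Set (ℝ × (ℕ → Bool))) (hT : MeasurableSet T)
    (g : ∀ i : I, ({j // j < i} → Bool) → ℝ) (hg : ∀ i, Measurable (g i)) (i : I) :
    @Measurable _ _ (⨆ j ∈ Set.Iic i, mm j) _ (fun ω => YY T g ω i) := by
  refine WellFounded.induction (wellFounded_lt (α := I))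
    (C := fun i => @Measurable _ _ (⨆ j ∈ Set.Iic i, mm j) _ (fun ω => YY T g ω i)) i ?_
  intro i ih
  have h1 : @Measurable _ _ (⨆ j ∈ Set.Iic i, mm j) _
      (fun ω : I → ℕ → Bool => (fun j : {j // j < i} => YY T g ω j.1)) := by
    refine @measurable_pi_lambda _ _ _ (⨆ j ∈ Set.Iic i, mm j) _ _ fun j => ?_
    refine (ih j.1 j.2).mono ?_ le_rfl
    refine iSup₂_le fun k hk => ?_
    exact le_iSup₂_of_le k (le_trans hk (le_of_lt j.2)) le_rfl
  have h2 : @Measurable _ _ (⨆ j ∈ Set.Iic i, mm j) _ (fun ω : I → ℕ → Bool => ω i) := by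
    refine Measurable.mono (comap_measurable (fun ω : I → ℕ → Bool => ω i)) ?_ le_rfl
    exact le_iSup₂_of_le (f := fun (j : I) (_ : j ∈ Set.Iic i) => mm j) i
      (Set.mem_Iic.2 le_rfl) le_rfl
  have h3 : @Measurable _ _ (⨆ j ∈ Set.Iic i, mm j) _ (fun ω : I → ℕ → Bool =>
      (g i (fun j : {j // j < i} => YY T g ω j.1), ω i)) :=
    Measurable.prodMk (m := ⨆ j ∈ Set.Iic i, mm j) ((hg i).comp h1) h2
  refine @measurable_to_bool _ (⨆ j ∈ Set.Iic i, mm j) _ ?_
  have h4 : (fun ω => YY T g ω i) ⁻¹' {true} = (fun ω : I → ℕ → Bool =>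
      (g i (fun j : {j // j < i} => YY T g ω j.1), ω i)) ⁻¹' T := by
    ext ω
    exact YY_eq T g ω i
  rw [h4]
  exact h3 hT

theorem mm_le (j : I) : mm j ≤ (inferInstance : MeasurableSpace (I → ℕ → Bool)) :=
  (measurable_pi_apply j).comap_le

theorem measurable_YY (T : Set (ℝ × (ℕ → Bool))) (hT : MeasurableSet T)
    (g : ∀ i : I, ({j // j < i} → Bool) → ℝ) (hg : ∀ i, Measurable (g i)) (i : I) :
    Measurable (fun ω => YY T g ω i) :=
  (measurable_YY_sub T hT g hg i).mono (iSup₂_le fun j _ => mm_le j) le_rfl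

theorem indep_YY (T : Set (ℝ × (ℕ → Bool))) (hT : MeasurableSet T)
    (g : ∀ i : I, ({j // j < i} → Bool) → ℝ) (hg : ∀ i, Measurable (g i)) (m : I) :
    IndepFun (fun ω : I → ℕ → Bool => (fun k : {k // k < m} => YY T g ω k.1))
      (fun ω : I → ℕ → Bool => ω m) (Measure.infinitePi fun _ : I => coin ℕ) := by
  have h0 : iIndepFun (fun (i : I) (ω : I → ℕ → Bool) => ω i)
      (Measure.infinitePi fun _ : I => coin ℕ) :=
    iIndepFun_infinitePi (P := fun _ : I => coin ℕ) (X := fun _ ω => ω) (fun _ => measurable_id)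
  have h1 : iIndep (fun j : I => mm j) (Measure.infinitePi fun _ : I => coin ℕ) :=
    (iIndepFun_iff_iIndep _ _ _).1 h0
  have hd : Disjoint (Set.Iio m) {m} := by
    rw [Set.disjoint_singleton_right]
    exact fun h => lt_irrefl _ h
  have h2 := indep_iSup_of_disjoint mm_le h1 hd
  rw [IndepFun_iff_Indep]
  refine indep_of_indep_of_le_left (indep_of_indep_of_le_right h2 ?_) ?_
  · exact le_iSup₂_of_le (f := fun (j : I) (_ : j ∈ ({m} : Set I)) => mm j) m
      (Set.mem_singleton m) le_rfl
  · have h3 : @Measurable _ _ (⨆ j ∈ Set.Iio m, mm j) _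
        (fun ω : I → ℕ → Bool => (fun j : {j // j < m} => YY T g ω j.1)) := by
      refine @measurable_pi_lambda _ _ _ (⨆ j ∈ Set.Iio m, mm j) _ _ fun j => ?_
      refine (measurable_YY_sub T hT g hg j.1).mono ?_ le_rfl
      refine iSup₂_le fun k hk => ?_
      exact le_iSup₂_of_le k (lt_of_le_of_lt hk j.2) le_rfl
    exact h3.comap_le

end rec

theorem measurableSet_cyl {A : Type} (J : Finset A) (w : A → Bool) :
    MeasurableSet {z : A → Bool | ∀ k ∈ J, z k = w k} := by
  have h : {z : A → Bool | ∀ k ∈ J, z k = w k} = ⋂ k ∈ J, {z | z k = w k} := by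
    ext z; simp
  rw [h]
  refine Finset.measurableSet_biInter _ fun k _ => ?_
  have h1 := (measurable_pi_apply (X := fun _ : A => Bool) k) (measurableSet_singleton (w k))
  exact h1

section law

variable {I : Type} [LinearOrder I] [WellFoundedLT I]

theorem step_true (ν : Measure (I → Bool)) [IsProbabilityMeasure ν]
    (T : Set (ℝ × (ℕ → Bool))) (hT : MeasurableSet T)
    (hT2 : ∀ t : ℝ, 0 ≤ t → t ≤ 1 → coin ℕ {ω | (t, ω) ∈ T} = ENNReal.ofReal t)
    (g : ∀ i : I, ({j // j < i} → Bool) → ℝ) (hg : ∀ i, Measurable (g i))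
    (hg0 : ∀ i y, 0 ≤ g i y) (hg1 : ∀ i y, g i y ≤ 1)
    (hgB : ∀ i (B : Set ({j // j < i} → Bool)), MeasurableSet B →
      ∫⁻ y in B, ENNReal.ofReal (g i y) ∂(ν.map fun (y : I → Bool) (j : {j // j < i}) => y j.1) =
        ν ((fun (y : I → Bool) (j : {j // j < i}) => y j.1) ⁻¹' B ∩ {y | y i = true}))
    (m : I)
    (hlaw : (Measure.infinitePi fun _ : I => coin ℕ).map
      (fun ω : I → ℕ → Bool => (fun k : {k // k < m} => YY T g ω k.1)) =
      ν.map fun (y : I → Bool) (j : {j // j < m}) => y j.1)
    (B : Set ({j // j < m} → Bool)) (hB : MeasurableSet B) :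
    (Measure.infinitePi fun _ : I => coin ℕ)
      ({ω | (fun k : {k // k < m} => YY T g ω k.1) ∈ B} ∩ {ω | YY T g ω m = true}) =
      ν ((fun (y : I → Bool) (j : {j // j < m}) => y j.1) ⁻¹' B ∩ {y | y m = true}) := by
  classical
  set P := (Measure.infinitePi fun _ : I => coin ℕ) with hP
  have hF : Measurable (fun ω : I → ℕ → Bool => (fun k : {k // k < m} => YY T g ω k.1)) :=
    measurable_pi_lambda _ fun k => measurable_YY T hT g hg k.1
  have hG : Measurable (fun ω : I → ℕ → Bool => ω m) := measurable_pi_apply m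
  have hprod := (indepFun_iff_map_prod_eq_prod_map_map hF.aemeasurable hG.aemeasurable).1
    (indep_YY T hT g hg m)
  have hGmap : P.map (fun ω : I → ℕ → Bool => ω m) = coin ℕ :=
    Measure.infinitePi_map_eval (fun _ : I => coin ℕ) m
  rw [← hP, hlaw, hGmap] at hprod
  set S : Set (({j // j < m} → Bool) × (ℕ → Bool)) :=
    {p | p.1 ∈ B ∧ (g m p.1, p.2) ∈ T} with hS
  have hSm : MeasurableSet S := by
    refine MeasurableSet.inter (measurable_fst hB) ?_
    exact (((hg m).comp measurable_fst).prodMk measurable_snd) hT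
  have hset : ({ω : I → ℕ → Bool | (fun k : {k // k < m} => YY T g ω k.1) ∈ B} ∩
      {ω | YY T g ω m = true}) =
      (fun ω : I → ℕ → Bool => ((fun k : {k // k < m} => YY T g ω k.1), ω m)) ⁻¹' S := by
    ext ω
    constructor
    · rintro ⟨h1, h2⟩
      exact ⟨h1, (YY_eq T g ω m).1 h2⟩
    · rintro ⟨h1, h2⟩
      exact ⟨h1, (YY_eq T g ω m).2 h2⟩
  rw [hset, ← Measure.map_apply (hF.prodMk hG) hSm, hprod, Measure.prod_apply hSm, ← hgB m B hB,
    ← lintegral_indicator hB]
  refine lintegral_congr fun z => ?_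
  by_cases hz : z ∈ B
  · rw [Set.indicator_of_mem hz, ← hT2 (g m z) (hg0 m z) (hg1 m z)]
    congr 1
    ext w
    simp [hS, hz]
  · rw [Set.indicator_of_notMem hz]
    have : Prod.mk z ⁻¹' S = ∅ := by
      ext w
      simp [hS, hz]
    rw [this, measure_empty]

end law

theorem losb (hA : LosAStmt) : LosBStmt := by
  classical
  intro I ν hν
  obtain ⟨T, hT, hT2⟩ := hA
  obtain ⟨_, _⟩ := exists_wellFoundedLT I
  have hρ : ∀ i : I, Measurable fun (y : I → Bool) (j : {j // j < i}) => y j.1 := fun i =>
    measurable_pi_lambda _ fun j => measurable_pi_apply j.1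
  have hg' := fun i : I => exists_cond ν (fun (y : I → Bool) (j : {j // j < i}) => y j.1) (hρ i)
    {y | y i = true}
  choose g hg hg0 hg1 hgB using hg'
  set P := (Measure.infinitePi fun _ : I => coin ℕ) with hP
  have hYm : ∀ i, Measurable fun ω => YY T g ω i := measurable_YY T hT g hg
  let Q : Finset I → Prop := fun J => ∀ w : I → Bool,
    P {ω | ∀ j ∈ J, YY T g ω j = w j} = ν {y | ∀ j ∈ J, y j = w j}
  have hQ0 : Q ∅ := by
    intro w
    simp
  have step : ∀ m : I, (∀ J : Finset I, (∀ j ∈ J, j < m) → Q J) →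
      ∀ J : Finset I, (∀ j ∈ J, j ≤ m) → Q J := by
    intro m hm J hJ
    by_cases hmJ : m ∈ J
    swap
    · exact hm J fun j hj => lt_of_le_of_ne (hJ j hj) fun h => hmJ (h ▸ hj)
    have hFm : Measurable (fun ω : I → ℕ → Bool => (fun k : {k // k < m} => YY T g ω k.1)) :=
      measurable_pi_lambda _ fun k => hYm k.1
    have hlaw : P.map (fun ω : I → ℕ → Bool => (fun k : {k // k < m} => YY T g ω k.1)) =
        ν.map fun (y : I → Bool) (j : {j // j < m}) => y j.1 := by
      have : IsFiniteMeasure (P.map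
        (fun ω : I → ℕ → Bool => (fun k : {k // k < m} => YY T g ω k.1))) :=
        Measure.isFiniteMeasure_map _ _
      have : IsFiniteMeasure (ν.map fun (y : I → Bool) (j : {j // j < m}) => y j.1) :=
        Measure.isFiniteMeasure_map _ _
      refine ext_cyl _ _ fun J' w' => ?_
      rw [Measure.map_apply hFm (measurableSet_cyl J' w'),
        Measure.map_apply (hρ m) (measurableSet_cyl J' w')]
      set w2 : I → Bool := fun i => if hi : i < m then w' ⟨i, hi⟩ else false with hw2
      have hw2' : ∀ k : {k // k < m}, w2 k.1 = w' k := by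
        intro k
        simp only [hw2]
        rw [dif_pos k.2]
      have h1 := hm (J'.map (Function.Embedding.subtype _)) (by
        intro j hj
        obtain ⟨k, -, rfl⟩ := Finset.mem_map.1 hj
        exact k.2) w2
      have hiff : ∀ z : I → Bool, (∀ k ∈ J', z k.1 = w' k) ↔
          ∀ j ∈ J'.map (Function.Embedding.subtype _), z j = w2 j := by
        intro z
        constructor
        · intro h j hj
          obtain ⟨k, hk, rfl⟩ := Finset.mem_map.1 hj
          exact (h k hk).trans (hw2' k).symm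
        · intro h k hk
          exact (h k.1 (Finset.mem_map.2 ⟨k, hk, rfl⟩)).trans (hw2' k)
      have h2 : (fun ω : I → ℕ → Bool => (fun k : {k // k < m} => YY T g ω k.1)) ⁻¹'
          {z | ∀ k ∈ J', z k = w' k} = {ω | ∀ j ∈ J'.map (Function.Embedding.subtype _),
            YY T g ω j = w2 j} := by
        ext ω
        exact hiff (YY T g ω)
      have h3 : (fun (y : I → Bool) (j : {j // j < m}) => y j.1) ⁻¹'
          {z | ∀ k ∈ J', z k = w' k} = {y | ∀ j ∈ J'.map (Function.Embedding.subtype _),
            y j = w2 j} := by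
        ext y
        exact hiff y
      rw [h2, h3]
      exact h1
    intro w
    set B : Set ({j // j < m} → Bool) :=
      {z | ∀ k ∈ (J.erase m).subtype (fun j => j < m), z k = (fun k : {j // j < m} => w k.1) k}
      with hB
    have hBm : MeasurableSet B := measurableSet_cyl _ _
    have hmem : ∀ z : I → Bool, (fun k : {j // j < m} => z k.1) ∈ B ↔
        ∀ j ∈ J.erase m, z j = w j := by
      intro z
      simp only [hB, Set.mem_ofPred_eq, Finset.mem_subtype]
      constructor
      · intro h j hj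
        have hlt : j < m := lt_of_le_of_ne (hJ j (Finset.mem_of_mem_erase hj))
          (Finset.ne_of_mem_erase hj)
        exact h ⟨j, hlt⟩ hj
      · intro h k hk
        exact h k.1 hk
    have key := step_true ν T hT hT2 g hg hg0 hg1 hgB m hlaw B hBm
    have hall : P {ω | (fun k : {k // k < m} => YY T g ω k.1) ∈ B} =
        ν ((fun (y : I → Bool) (j : {j // j < m}) => y j.1) ⁻¹' B) := by
      have h1 : (P.map (fun ω : I → ℕ → Bool => (fun k : {k // k < m} => YY T g ω k.1))) B =
          (ν.map fun (y : I → Bool) (j : {j // j < m}) => y j.1) B := by rw [hlaw]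
      rw [Measure.map_apply hFm hBm, Measure.map_apply (hρ m) hBm] at h1
      exact h1
    have hsplit : ∀ z : I → Bool, (∀ j ∈ J, z j = w j) ↔
        ((fun k : {j // j < m} => z k.1) ∈ B ∧ z m = w m) := by
      intro z
      rw [hmem z]
      constructor
      · intro h
        exact ⟨fun j hj => h j (Finset.mem_of_mem_erase hj), h m hmJ⟩
      · rintro ⟨h1, h2⟩ j hj
        by_cases hjm : j = m
        · rw [hjm]; exact h2
        · exact h1 j (Finset.mem_erase.2 ⟨hjm, hj⟩)
    have e1 : {ω : I → ℕ → Bool | ∀ j ∈ J, YY T g ω j = w j} =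
        {ω | (fun k : {k // k < m} => YY T g ω k.1) ∈ B} ∩ {ω | YY T g ω m = w m} := by
      ext ω
      exact hsplit (YY T g ω)
    have e2 : {y : I → Bool | ∀ j ∈ J, y j = w j} =
        (fun (y : I → Bool) (j : {j // j < m}) => y j.1) ⁻¹' B ∩ {y | y m = w m} := by
      ext y
      exact hsplit y
    rw [e1, e2]
    cases hw : w m with
    | true => exact key
    | false =>
      have m1 : MeasurableSet {ω : I → ℕ → Bool | YY T g ω m = true} :=
        hYm m (measurableSet_singleton true)
      have m2 : MeasurableSet {y : I → Bool | y m = true} := by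
        have h1 := (measurable_pi_apply (X := fun _ : I => Bool) m)
          (measurableSet_singleton true)
        exact h1
      have d1 := measure_inter_add_diff (μ := P)
        {ω : I → ℕ → Bool | (fun k : {k // k < m} => YY T g ω k.1) ∈ B} m1
      have d2 := measure_inter_add_diff (μ := ν)
        ((fun (y : I → Bool) (j : {j // j < m}) => y j.1) ⁻¹' B) m2
      rw [key, hall, ← d2] at d1
      have d3 := (ENNReal.add_right_inj (measure_ne_top ν _)).1 d1
      have c1 : {ω : I → ℕ → Bool | (fun k : {k // k < m} => YY T g ω k.1) ∈ B} ∩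
          {ω | YY T g ω m = false} =
          {ω : I → ℕ → Bool | (fun k : {k // k < m} => YY T g ω k.1) ∈ B} \
          {ω | YY T g ω m = true} := by
        ext ω
        simp [Set.mem_diff]
      have c2 : (fun (y : I → Bool) (j : {j // j < m}) => y j.1) ⁻¹' B ∩ {y | y m = false} =
          (fun (y : I → Bool) (j : {j // j < m}) => y j.1) ⁻¹' B \ {y | y m = true} := by
        ext y
        simp [Set.mem_diff]
      rw [c1, c2]
      exact d3
  have hle : ∀ m : I, ∀ J : Finset I, (∀ j ∈ J, j ≤ m) → Q J := by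
    intro m
    refine WellFounded.induction (wellFounded_lt (α := I))
      (C := fun m => ∀ J : Finset I, (∀ j ∈ J, j ≤ m) → Q J) m ?_
    intro m ih
    refine step m fun J hJ => ?_
    rcases J.eq_empty_or_nonempty with rfl | hne
    · exact hQ0
    · exact ih (J.max' hne) (hJ _ (J.max'_mem hne)) J fun j hj => J.le_max' j hj
  have hall : ∀ J : Finset I, Q J := by
    intro J
    rcases J.eq_empty_or_nonempty with rfl | hne
    · exact hQ0
    · exact hle (J.max' hne) J fun j hj => J.le_max' j hj
  have hY : Measurable (fun ω => YY T g ω) := measurable_pi_lambda _ hYm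
  refine ⟨fun ω => YY T g ω, hY, ?_⟩
  have : IsFiniteMeasure (P.map (fun ω => YY T g ω)) := Measure.isFiniteMeasure_map _ _
  refine ext_cyl _ _ fun J w => ?_
  rw [Measure.map_apply hY (measurableSet_cyl J w)]
  exact hall J w

end Pool.Agent.SQS.H40
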